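import Pool.Agent.V1129.LMP4

set_option autoImplicit false

/-!
MP_27feec_al, Q1 (and hence Q2): for a complete locally minimal abelian group `G` and any compact
subgroup `K` of `G`, the quotient group `G ⧸ K` is locally minimal.
-/

namespace Pool.Agent.V1129.LMP

open Topology Filter

/-- A topological abelian group is locally minimal if it is Hausdorff and there is a neighbourhood
`V` of zero such that every Hausdorff group topology `σ` on `G` which is coarser than the given
topology and in which `V` is still a neighbourhood of zero equals the given topology. -/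
def LocallyMinimal (G : Type) [AddCommGroup G] [τ : TopologicalSpace G] : Prop :=
  T2Space G ∧ ∃ V ∈ 𝓝 (0 : G), ∀ σ : TopologicalSpace G, @IsTopologicalAddGroup G σ _ →
    @T2Space G σ → τ ≤ σ → V ∈ @nhds G σ 0 → σ = τ

end Pool.Agent.V1129.LMP

namespace Pool.Agent.Results.MP_27feec_al.QuotientLocMin

open Topology Filter Pool.Agent.V1129.LMP

/-- Let `G` be a complete (Hausdorff) locally minimal abelian group and `K` a compact subgroup.
Then `G ⧸ K`, with the quotient topology, is locally minimal. -/
theorem result (G : Type) [AddCommGroup G] [UniformSpace G] [IsUniformAddGroup G]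
    [CompleteSpace G] (hG : LocallyMinimal G) (K : AddSubgroup G) (hK : IsCompact (K : Set G)) :
    LocallyMinimal (G ⧸ K) := by
  obtain ⟨hT2, V₀, hV₀, hmin⟩ := hG
  obtain ⟨N, hN, hP⟩ := exists_propK G V₀ hV₀ hmin K hK
  have hcl : IsClosed (K : Set G) := hK.isClosed
  refine ⟨?_, (fun g : G => (g : G ⧸ K)) '' N, ?_, ?_⟩
  · have : T3Space (G ⧸ K) := inferInstance
    infer_instance
  · have h1 : IsOpenMap (fun g : G => (g : G ⧸ K)) := QuotientAddGroup.isOpenMap_coe
    have h2 := h1.image_mem_nhds hN
    simpa using h2
  · intro σ hσ hσ2 hle hV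
    exact final G K N hP σ hσ hσ2 hle hV

end Pool.Agent.Results.MP_27feec_al.QuotientLocMin
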